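import Pool.Agent.H308R3.DM.Stmts

set_option autoImplicit false

namespace Pool.Agent.H666R3.DM

open Finset Filter Topology
open Pool.Agent.H308R3.DM
open scoped Classical BigOperators

noncomputable section

theorem upos_cons_zero {n : ℕ} (b : Bool) (τ : Fin n → Bool) :
    upos (Fin.cons b τ : Fin (n + 1) → Bool) 0 = 0 := by
  simp [upos]

theorem upos_zero {n : ℕ} (σ : Fin n → Bool) : upos σ 0 = 0 := by
  simp [upos]

theorem upos_cons_succ {n : ℕ} (b : Bool) (τ : Fin n → Bool) (k : ℕ) :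
    upos (Fin.cons b τ : Fin (n + 1) → Bool) (k + 1) = sg b + upos τ k := by
  unfold upos
  rw [Fin.sum_univ_succ]
  simp

/-- weighted path sum from `x` with end function `h` -/
def Z (θ : ℝ) (K : ℕ) (P : Finset ℤ) (h : ℤ → ℝ) (n : ℕ) (x : ℤ) : ℝ :=
  ∑ σ : Fin n → Bool, if (∀ k ≤ n, |x + upos σ k| ≤ (K : ℤ)) then
      Real.exp (-θ * (((range n).filter (fun i => x + upos σ i ∉ P)).card : ℝ))
        * h (x + upos σ n) else 0

theorem Z_zero (θ : ℝ) (K : ℕ) (P : Finset ℤ) (h : ℤ → ℝ) (x : ℤ) :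
    Z θ K P h 0 x = if |x| ≤ (K : ℤ) then h x else 0 := by
  unfold Z
  simp [upos]

theorem term_cons (θ : ℝ) (K : ℕ) (P : Finset ℤ) (h : ℤ → ℝ) (n : ℕ) (x : ℤ) (b : Bool)
    (τ : Fin n → Bool) :
    (if (∀ k ≤ n + 1, |x + upos (Fin.cons b τ : Fin (n + 1) → Bool) k| ≤ (K : ℤ)) then
      Real.exp (-θ * ((((range (n + 1))).filter
        (fun i => x + upos (Fin.cons b τ : Fin (n + 1) → Bool) i ∉ P)).card : ℝ))
        * h (x + upos (Fin.cons b τ : Fin (n + 1) → Bool) (n + 1)) else 0) =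
    if |x| ≤ (K : ℤ) then Real.exp (-θ * (if x ∉ P then 1 else 0)) *
      (if (∀ k ≤ n, |(x + sg b) + upos τ k| ≤ (K : ℤ)) then
      Real.exp (-θ * (((range n).filter (fun i => (x + sg b) + upos τ i ∉ P)).card : ℝ))
        * h ((x + sg b) + upos τ n) else 0) else 0 := by
  have hcond : (∀ k ≤ n + 1, |x + upos (Fin.cons b τ : Fin (n + 1) → Bool) k| ≤ (K : ℤ)) ↔
      (|x| ≤ (K : ℤ) ∧ ∀ k ≤ n, |(x + sg b) + upos τ k| ≤ (K : ℤ)) := by
    constructor
    · intro H
      refine ⟨by simpa [upos_cons_zero] using H 0 (Nat.zero_le _), fun k hk => ?_⟩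
      have := H (k + 1) (by omega)
      rwa [upos_cons_succ, ← add_assoc] at this
    · rintro ⟨h0, H⟩ k hk
      rcases k with _ | k
      · simpa [upos_cons_zero] using h0
      · rw [upos_cons_succ, ← add_assoc]
        exact H k (by omega)
  have hcard : (((range (n + 1)).filter
        (fun i => x + upos (Fin.cons b τ : Fin (n + 1) → Bool) i ∉ P)).card : ℝ) =
      (if x ∉ P then 1 else 0) +
      (((range n).filter (fun i => (x + sg b) + upos τ i ∉ P)).card : ℝ) := by
    rw [Finset.card_filter, Finset.card_filter, Finset.sum_range_succ']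
    push_cast
    rw [add_comm]
    congr 1
    · simp [upos_cons_zero]
    · refine Finset.sum_congr rfl fun i _ => ?_
      simp only [upos_cons_succ, ← add_assoc]
  rw [hcard]
  by_cases hx : |x| ≤ (K : ℤ)
  · by_cases hk : ∀ k ≤ n, |(x + sg b) + upos τ k| ≤ (K : ℤ)
    · rw [if_pos (hcond.2 ⟨hx, hk⟩), if_pos hx, if_pos hk, mul_add, Real.exp_add, upos_cons_succ,
        ← add_assoc, mul_assoc]
    · rw [if_neg (fun H => hk (hcond.1 H).2), if_pos hx, if_neg hk, mul_zero]
  · rw [if_neg (fun H => hx (hcond.1 H).1), if_neg hx]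

theorem Z_succ (θ : ℝ) (K : ℕ) (P : Finset ℤ) (h : ℤ → ℝ) (n : ℕ) (x : ℤ) :
    Z θ K P h (n + 1) x = if |x| ≤ (K : ℤ) then Real.exp (-θ * (if x ∉ P then 1 else 0)) *
      (Z θ K P h n (x + 1) + Z θ K P h n (x - 1)) else 0 := by
  have e1 : Z θ K P h (n + 1) x = ∑ p : Bool × (Fin n → Bool),
      (if |x| ≤ (K : ℤ) then Real.exp (-θ * (if x ∉ P then 1 else 0)) *
      (if (∀ k ≤ n, |(x + sg p.1) + upos p.2 k| ≤ (K : ℤ)) then
      Real.exp (-θ * ((((range n)).filter
        (fun i => (x + sg p.1) + upos p.2 i ∉ P)).card : ℝ))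
        * h ((x + sg p.1) + upos p.2 n) else 0) else 0) := by
    unfold Z
    rw [← (Fin.consEquiv (fun _ : Fin (n + 1) => Bool)).sum_comp]
    refine Finset.sum_congr rfl fun p _ => ?_
    exact term_cons θ K P h n x p.1 p.2
  rw [e1, Fintype.sum_prod_type, Fintype.sum_bool]
  by_cases hx : |x| ≤ (K : ℤ)
  · simp only [if_pos hx, ← Finset.mul_sum, ← mul_add]
    congr 1
  · simp [if_neg hx]

theorem Z_le (θ : ℝ) (K : ℕ) (P : Finset ℤ) (h : ℤ → ℝ) (hpos : ∀ x, 0 ≤ h x) (ρ : ℝ) (hρ : 0 ≤ ρ)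
    (hsup : ∀ x : ℤ, |x| ≤ (K : ℤ) →
      Real.exp (-θ * (if x ∉ P then 1 else 0)) * (h (x + 1) + h (x - 1)) ≤ 2 * ρ * h x) :
    ∀ (n : ℕ) (x : ℤ), Z θ K P h n x ≤ (2 * ρ) ^ n * h x := by
  intro n
  induction n with
  | zero =>
    intro x
    rw [Z_zero]
    split_ifs
    · simp
    · simpa using hpos x
  | succ n ih =>
    intro x
    rw [Z_succ]
    by_cases hx : |x| ≤ (K : ℤ)
    · rw [if_pos hx]
      calc Real.exp (-θ * (if x ∉ P then 1 else 0)) * (Z θ K P h n (x + 1) + Z θ K P h n (x - 1))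
          ≤ Real.exp (-θ * (if x ∉ P then 1 else 0)) *
            ((2 * ρ) ^ n * h (x + 1) + (2 * ρ) ^ n * h (x - 1)) := by
            gcongr
            · exact ih _
            · exact ih _
        _ = (2 * ρ) ^ n * (Real.exp (-θ * (if x ∉ P then 1 else 0)) * (h (x + 1) + h (x - 1))) := by
            ring
        _ ≤ (2 * ρ) ^ n * (2 * ρ * h x) := by
            exact mul_le_mul_of_nonneg_left (hsup x hx) (by positivity)
        _ = (2 * ρ) ^ (n + 1) * h x := by ring
    · rw [if_neg hx]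
      have := hpos x
      positivity

/-! ### trigonometric part -/

section Trig

variable (C : ℝ) (p : ℕ)

/-- the angle -/
def om : ℝ := Real.pi / (p + C)

def sn (j : ℕ) : ℝ := Real.sin (((C - 1) / 2 + j) * om C p)

variable {C} (hC : 3 ≤ C)

include hC

theorem om_pos : 0 < om C p := by
  unfold om
  have : (0 : ℝ) ≤ p := Nat.cast_nonneg p
  have : (0 : ℝ) < p + C := by linarith
  exact div_pos Real.pi_pos this

theorem om_mul : (p + C) * om C p = Real.pi := by
  unfold om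
  have : (0 : ℝ) ≤ p := Nat.cast_nonneg p
  have : (0 : ℝ) < p + C := by linarith
  field_simp

theorem sn_pos (j : ℕ) (hj : j ≤ p + 1) : 0 < sn C p j := by
  unfold sn
  have h0 := om_pos p hC
  have h1 := om_mul p hC
  have hj' : (j : ℝ) ≤ p + 1 := by exact_mod_cast hj
  have hj0 : (0 : ℝ) ≤ j := Nat.cast_nonneg j
  apply Real.sin_pos_of_pos_of_lt_pi
  · apply mul_pos _ h0
    linarith
  · rw [← h1]
    apply mul_lt_mul_of_pos_right _ h0
    linarith

omit hC in
theorem sn_rec (j : ℕ) : sn C p (j + 2) + sn C p j = 2 * Real.cos (om C p) * sn C p (j + 1) := by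
  unfold sn
  push_cast
  have e1 : ((C - 1) / 2 + ((j : ℝ) + 2)) * om C p = ((C - 1) / 2 + (j + 1)) * om C p + om C p := by
    ring
  have e2 : ((C - 1) / 2 + (j : ℝ)) * om C p = ((C - 1) / 2 + (j + 1)) * om C p - om C p := by
    ring
  rw [e1, e2, Real.sin_add, Real.sin_sub]
  ring

theorem sn_refl (j : ℕ) (hj : j ≤ p + 1) : sn C p j = sn C p (p + 1 - j) := by
  unfold sn
  have h1 := om_mul p hC
  rw [← Real.sin_pi_sub]
  congr 1
  rw [Nat.cast_sub hj]
  push_cast
  rw [← h1]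
  ring

theorem R0_ge : 1 ≤ 1 + 2 / (C - 1) := by
  have : 0 ≤ 2 / (C - 1) := div_nonneg (by norm_num) (by linarith)
  linarith

theorem R0_le : 1 + 2 / (C - 1) ≤ C := by
  have : 2 / (C - 1) ≤ 1 := by
    rw [div_le_one (by linarith)]
    linarith
  linarith

theorem sn_up (j : ℕ) (hj : j ≤ p) : sn C p (j + 1) ≤ (1 + 2 / (C - 1)) * sn C p j := by
  have h0 := om_pos p hC
  have h1 := om_mul p hC
  have hp0 : (0 : ℝ) ≤ p := Nat.cast_nonneg p
  induction j with
  | zero =>
    unfold sn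
    rw [Nat.cast_add, Nat.cast_one]
    have e1 : ((C - 1) / 2 + (((0 : ℕ) : ℝ) + 1)) * om C p = (C - 1) / 2 * om C p + om C p := by
      push_cast; ring
    have e2 : ((C - 1) / 2 + ((0 : ℕ) : ℝ)) * om C p = (C - 1) / 2 * om C p := by
      push_cast; ring
    rw [e1, e2, Real.sin_add]
    set x := (C - 1) / 2 * om C p with hx
    have hx0 : 0 < x := mul_pos (by linarith) h0
    have hx1 : x < Real.pi / 2 := by
      rw [hx, ← h1]
      have : (C - 1) / 2 < (p + C) / 2 := by linarith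
      nlinarith
    have hsin : 0 < Real.sin x := Real.sin_pos_of_pos_of_lt_pi hx0 (by linarith [Real.pi_pos])
    have hcos : 0 < Real.cos x := Real.cos_pos_of_mem_Ioo ⟨by linarith [Real.pi_pos], hx1⟩
    have htan : x * Real.cos x ≤ Real.sin x := by
      have := Real.lt_tan hx0 hx1
      rw [Real.tan_eq_sin_div_cos, lt_div_iff₀ hcos] at this
      exact this.le
    have hso : Real.sin (om C p) ≤ om C p := Real.sin_le h0.le
    have hco : Real.cos (om C p) ≤ 1 := Real.cos_le_one _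
    have h2 : Real.cos x * om C p = 2 / (C - 1) * (x * Real.cos x) := by
      rw [hx]
      have : C - 1 ≠ 0 := by linarith
      field_simp
    have h3 : 0 ≤ 2 / (C - 1) := div_nonneg (by norm_num) (by linarith)
    calc Real.sin x * Real.cos (om C p) + Real.cos x * Real.sin (om C p)
        ≤ Real.sin x * 1 + Real.cos x * om C p := by gcongr
      _ = Real.sin x + 2 / (C - 1) * (x * Real.cos x) := by rw [h2]; ring
      _ ≤ Real.sin x + 2 / (C - 1) * Real.sin x := by gcongr
      _ = (1 + 2 / (C - 1)) * Real.sin x := by ring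
  | succ j ih =>
    have ih' := ih (by omega)
    have hr := sn_rec (C := C) p j
    have hp1 := sn_pos p hC (j + 1) (by omega)
    have hp2 := sn_pos p hC j (by omega)
    have hco : Real.cos (om C p) ≤ 1 := Real.cos_le_one _
    have hR := R0_ge hC
    set R := 1 + 2 / (C - 1) with hRdef
    have hRpos : 0 < R := by linarith
    -- s j ≥ s (j+1) / R
    have h4 : 2 * sn C p (j + 1) - R * sn C p (j + 1) ≤ sn C p j := by
      -- (2 - R) s(j+1) ≤ s(j+1)/R ≤ s j
      have h5 : (2 - R) * sn C p (j + 1) * R ≤ sn C p j * R := by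
        nlinarith [mul_nonneg (mul_nonneg hp1.le (sq_nonneg (R - 1))) (zero_le_one (α := ℝ))]
      nlinarith
    show sn C p (j + 2) ≤ R * sn C p (j + 1)
    nlinarith [mul_le_mul_of_nonneg_right hco hp1.le]

theorem sn_dn (j : ℕ) (hj : j ≤ p) : sn C p j ≤ (1 + 2 / (C - 1)) * sn C p (j + 1) := by
  rw [sn_refl p hC j (by omega), sn_refl p hC (j + 1) (by omega)]
  have e : p + 1 - j = (p - j) + 1 := by omega
  have e2 : p + 1 - (j + 1) = p - j := by omega
  rw [e, e2]
  exact sn_up p hC (p - j) (by omega)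

def rr (C : ℝ) (p j : ℕ) : ℝ := sn C p (j + 1) / sn C p j

theorem rr_pos (j : ℕ) (hj : j ≤ p) : 0 < rr C p j :=
  div_pos (sn_pos p hC _ (by omega)) (sn_pos p hC _ (by omega))

theorem rr_le (j : ℕ) (hj : j ≤ p) : rr C p j ≤ 1 + 2 / (C - 1) := by
  unfold rr
  rw [div_le_iff₀ (sn_pos p hC _ (by omega))]
  exact sn_up p hC j hj

theorem rr_ge (j : ℕ) (hj : j ≤ p) : 1 ≤ (1 + 2 / (C - 1)) * rr C p j := by
  unfold rr
  rw [mul_div_assoc', le_div_iff₀ (sn_pos p hC _ (by omega)), one_mul]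
  exact sn_dn p hC j hj

theorem rr_rec (j : ℕ) (hj : j + 1 ≤ p) :
    rr C p (j + 1) + 1 / rr C p j = 2 * Real.cos (om C p) := by
  unfold rr
  have h1 := sn_pos p hC (j + 1) (by omega)
  have h2 := sn_pos p hC j (by omega)
  have h3 := sn_rec (C := C) p j
  rw [one_div_div, ← add_div, h3]
  field_simp

theorem rr_sum (j : ℕ) (hj : j ≤ p) :
    rr C p j + 1 / rr C p j ≤ (1 + 2 / (C - 1)) + 1 / (1 + 2 / (C - 1)) := by
  have h1 := rr_pos p hC j hj
  have h2 := rr_le p hC j hj
  have h3 := rr_ge p hC j hj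
  have hR := R0_ge hC
  set R := 1 + 2 / (C - 1) with hRdef
  set r := rr C p j with hr
  have hRpos : 0 < R := by linarith
  -- (R - r) (R r - 1) ≥ 0
  have key : 0 ≤ (R - r) * (R * r - 1) := mul_nonneg (by linarith) (by linarith)
  have e1 : r + 1 / r = (r ^ 2 + 1) / r := by field_simp
  have e2 : R + 1 / R = (R ^ 2 + 1) / R := by field_simp
  rw [e1, e2, div_le_div_iff₀ h1 hRpos]
  nlinarith

end Trig

/-! ### the supersolution -/

/-- number of points of `P` up to `k` -/
def N (P : Finset ℤ) (k : ℤ) : ℕ := (P.filter (· ≤ k)).card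

theorem N_le (P : Finset ℤ) (k : ℤ) : N P k ≤ P.card := Finset.card_filter_le _ _

theorem N_mem (P : Finset ℤ) (k : ℤ) (hk : k ∈ P) : N P k = N P (k - 1) + 1 := by
  unfold N
  have : P.filter (· ≤ k) = insert k (P.filter (· ≤ k - 1)) := by
    ext j
    simp only [mem_filter, mem_insert]
    constructor
    · rintro ⟨h1, h2⟩
      by_cases h : j = k
      · exact Or.inl h
      · exact Or.inr ⟨h1, by omega⟩
    · rintro (h | ⟨h1, h2⟩)
      · subst h; exact ⟨hk, le_refl _⟩
      · exact ⟨h1, by omega⟩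
  rw [this, Finset.card_insert_of_notMem]
  simp

theorem N_notMem (P : Finset ℤ) (k : ℤ) (hk : k ∉ P) : N P k = N P (k - 1) := by
  unfold N
  congr 1
  ext j
  simp only [mem_filter]
  constructor
  · rintro ⟨h1, h2⟩
    have : j ≠ k := fun h => hk (h ▸ h1)
    exact ⟨h1, by omega⟩
  · rintro ⟨h1, h2⟩
    exact ⟨h1, by omega⟩

def HH (C : ℝ) (P : Finset ℤ) (K m : ℕ) : ℝ :=
  ∏ i ∈ range m, rr C P.card (N P (-K - 1 + i))

def hh (C : ℝ) (P : Finset ℤ) (K : ℕ) (x : ℤ) : ℝ := HH C P K (x + K + 1).toNat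

section H

variable {C : ℝ} (hC : 3 ≤ C) (P : Finset ℤ) (K : ℕ)

include hC

theorem HH_pos (m : ℕ) : 0 < HH C P K m :=
  Finset.prod_pos fun _ _ => rr_pos _ hC _ (N_le _ _)

theorem HH_succ_le (m : ℕ) : HH C P K (m + 1) ≤ (1 + 2 / (C - 1)) * HH C P K m := by
  unfold HH
  rw [Finset.prod_range_succ, mul_comm]
  exact mul_le_mul_of_nonneg_right (rr_le _ hC _ (N_le _ _)) (HH_pos hC P K m).le

theorem HH_le_succ (m : ℕ) : HH C P K m ≤ (1 + 2 / (C - 1)) * HH C P K (m + 1) := by
  have h1 : HH C P K (m + 1) = HH C P K m * rr C P.card (N P (-K - 1 + m)) := by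
    unfold HH
    rw [Finset.prod_range_succ]
  rw [h1]
  have := rr_ge P.card hC (N P (-K - 1 + m)) (N_le _ _)
  nlinarith [HH_pos hC P K m]

theorem HH_add_le (m d : ℕ) : HH C P K (m + d) ≤ (1 + 2 / (C - 1)) ^ d * HH C P K m := by
  have hR := R0_ge hC
  induction d with
  | zero => simp
  | succ d ih =>
    calc HH C P K (m + d + 1) ≤ (1 + 2 / (C - 1)) * HH C P K (m + d) := HH_succ_le hC P K _
      _ ≤ (1 + 2 / (C - 1)) * ((1 + 2 / (C - 1)) ^ d * HH C P K m) := by
          exact mul_le_mul_of_nonneg_left ih (by linarith)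
      _ = (1 + 2 / (C - 1)) ^ (d + 1) * HH C P K m := by ring

theorem HH_le_add (m d : ℕ) : HH C P K m ≤ (1 + 2 / (C - 1)) ^ d * HH C P K (m + d) := by
  have hR := R0_ge hC
  induction d with
  | zero => simp
  | succ d ih =>
    calc HH C P K m ≤ (1 + 2 / (C - 1)) ^ d * HH C P K (m + d) := ih
      _ ≤ (1 + 2 / (C - 1)) ^ d * ((1 + 2 / (C - 1)) * HH C P K (m + d + 1)) := by
          exact mul_le_mul_of_nonneg_left (HH_le_succ hC P K _) (by positivity)
      _ = (1 + 2 / (C - 1)) ^ (d + 1) * HH C P K (m + (d + 1)) := by ring_nf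

theorem hh_pos (x : ℤ) : 0 < hh C P K x := HH_pos hC P K _

theorem hh_zero_le (x : ℤ) (hx : |x| ≤ (K : ℤ)) : hh C P K 0 ≤ C ^ (K + 1) * hh C P K x := by
  have hR := R0_ge hC
  have hRC := R0_le hC
  have hpow : ∀ d : ℕ, d ≤ K → (1 + 2 / (C - 1)) ^ d ≤ C ^ (K + 1) := by
    intro d hd
    calc (1 + 2 / (C - 1)) ^ d ≤ C ^ d := by gcongr
      _ ≤ C ^ (K + 1) := by
          apply pow_le_pow_right₀ (by linarith) (by omega)
  rw [abs_le] at hx
  rcases le_total 0 x with h0 | h0
  · obtain ⟨d, rfl⟩ := Int.eq_ofNat_of_zero_le h0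
    have e1 : (((d : ℕ) : ℤ) + K + 1).toNat = (K + 1) + d := by omega
    have e2 : ((0 : ℤ) + K + 1).toNat = K + 1 := by omega
    unfold hh
    rw [e1, e2]
    refine (HH_le_add hC P K (K + 1) d).trans ?_
    exact mul_le_mul_of_nonneg_right (hpow d (by omega)) (HH_pos hC P K _).le
  · obtain ⟨d, hd⟩ := Int.eq_ofNat_of_zero_le (show 0 ≤ -x by omega)
    have e1 : ((0 : ℤ) + K + 1).toNat = (x + K + 1).toNat + d := by omega
    unfold hh
    rw [e1]
    refine (HH_add_le hC P K _ d).trans ?_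
    exact mul_le_mul_of_nonneg_right (hpow d (by omega)) (HH_pos hC P K _).le

theorem hh_super (θ : ℝ)
    (hCθ : (1 + 2 / (C - 1)) + 1 / (1 + 2 / (C - 1)) ≤ 2 * Real.cos (om C P.card) * Real.exp θ)
    (x : ℤ) (hx : |x| ≤ (K : ℤ)) :
    Real.exp (-θ * (if x ∉ P then 1 else 0)) * (hh C P K (x + 1) + hh C P K (x - 1)) ≤
      2 * Real.cos (om C P.card) * hh C P K x := by
  rw [abs_le] at hx
  obtain ⟨m, hm⟩ := Int.eq_ofNat_of_zero_le (show 0 ≤ x + K by omega)
  have e1 : (x - 1 + K + 1).toNat = m := by omega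
  have e2 : (x + K + 1).toNat = m + 1 := by omega
  have e3 : (x + 1 + K + 1).toNat = m + 1 + 1 := by omega
  have f1 : hh C P K x = HH C P K m * rr C P.card (N P (x - 1)) := by
    unfold hh HH
    rw [e2, Finset.prod_range_succ]
    congr 3
    omega
  have f2 : hh C P K (x + 1) = hh C P K x * rr C P.card (N P x) := by
    unfold hh HH
    rw [e3, e2, Finset.prod_range_succ]
    congr 3
    push_cast
    omega
  have f3 : hh C P K (x - 1) = HH C P K m := by
    unfold hh
    rw [e1]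
  have hr := rr_pos P.card hC (N P (x - 1)) (N_le _ _)
  have f4 : hh C P K (x - 1) = hh C P K x * (1 / rr C P.card (N P (x - 1))) := by
    rw [f3, f1]
    field_simp
  have hp := hh_pos hC P K x
  rw [f2, f4, ← mul_add]
  by_cases hxP : x ∈ P
  · have hN := N_mem P x hxP
    have hle := N_le P x
    rw [if_neg (by simpa using hxP), mul_zero, Real.exp_zero, one_mul, hN,
      rr_rec P.card hC _ (by omega)]
    exact (mul_comm _ _).le
  · have hN := N_notMem P x hxP
    rw [if_pos hxP, mul_one, hN]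
    have h5 := rr_sum P.card hC (N P (x - 1)) (N_le _ _)
    calc Real.exp (-θ) * (hh C P K x * (rr C P.card (N P (x - 1)) + 1 / rr C P.card (N P (x - 1))))
        ≤ Real.exp (-θ) * (hh C P K x * (2 * Real.cos (om C P.card) * Real.exp θ)) := by
          gcongr
          exact h5.trans hCθ
      _ = 2 * Real.cos (om C P.card) * hh C P K x * (Real.exp (-θ) * Real.exp θ) := by ring
      _ = 2 * Real.cos (om C P.card) * hh C P K x := by
          rw [← Real.exp_add]
          simp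

end H

theorem exists_C (θ : ℝ) (hθ : 0 < θ) : ∃ C : ℝ, 3 ≤ C ∧ ∀ p : ℕ,
    (1 + 2 / (C - 1)) + 1 / (1 + 2 / (C - 1)) ≤ 2 * Real.cos (om C p) * Real.exp θ := by
  have h1 : Tendsto (fun C : ℝ => (1 + 2 / (C - 1)) + 1 / (1 + 2 / (C - 1))) atTop
      (𝓝 ((1 + 0) + 1 / (1 + 0))) := by
    have hb : Tendsto (fun C : ℝ => 2 / (C - 1)) atTop (𝓝 0) :=
      (tendsto_const_nhds (x := (2 : ℝ))).div_atTop (tendsto_atTop_add_const_right _ (-1) tendsto_id)
    exact (hb.const_add 1).add ((tendsto_const_nhds).div (hb.const_add 1) (by norm_num))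
  have h2 : Tendsto (fun C : ℝ => 2 * Real.cos (Real.pi / C) * Real.exp θ) atTop
      (𝓝 (2 * Real.cos 0 * Real.exp θ)) := by
    have hb : Tendsto (fun C : ℝ => Real.pi / C) atTop (𝓝 0) :=
      (tendsto_const_nhds (x := Real.pi)).div_atTop tendsto_id
    exact (((Real.continuous_cos.tendsto 0).comp hb).const_mul 2).mul_const _
  have h3 : (1 + 0 : ℝ) + 1 / (1 + 0) < 2 * Real.cos 0 * Real.exp θ := by
    rw [Real.cos_zero]
    have := Real.one_lt_exp_iff.2 hθ
    norm_num
    linarith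
  obtain ⟨C, hC1, hC2⟩ := ((h1.eventually_lt h2 h3).and (eventually_ge_atTop 3)).exists
  refine ⟨C, hC2, fun p => hC1.le.trans ?_⟩
  have hp0 : (0 : ℝ) ≤ p := Nat.cast_nonneg p
  have h4 : Real.cos (Real.pi / C) ≤ Real.cos (om C p) := by
    unfold om
    apply Real.cos_le_cos_of_nonneg_of_le_pi
    · exact div_nonneg Real.pi_pos.le (by linarith)
    · rw [div_le_iff₀ (by linarith)]
      nlinarith [Real.pi_pos]
    · apply div_le_div_of_nonneg_left Real.pi_pos.le (by linarith) (by linarith)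
  have := Real.exp_pos θ
  gcongr

theorem coe_univ (n : ℕ) : (do let a ← (univ : Finset (Fin n)); pure (a : ℕ)) = range n := by
  ext j
  simp [Finset.bind_def, Finset.pure_def]

theorem taskOneD : TaskOneD := by
  intro θ hθ
  obtain ⟨C, hC, hCp⟩ := exists_C θ hθ
  refine ⟨C, hC, fun n K P hP => ?_⟩
  have h0 := om_pos P.card hC
  have h1 := om_mul P.card hC
  have hcos : 0 ≤ Real.cos (om C P.card) := by
    apply Real.cos_nonneg_of_neg_pi_div_two_le_of_le
    · linarith [Real.pi_pos]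
    · have hp0 : (0 : ℝ) ≤ (P.card : ℝ) := Nat.cast_nonneg _
      nlinarith
  have key := Z_le θ K P (hh C P K) (fun x => (hh_pos hC P K x).le) _ hcos
    (fun x hx => hh_super hC P K θ (hCp _) x hx) n 0
  have hpos0 := hh_pos hC P K 0
  have hstep : (∑ σ : Fin n → Bool, if (∀ k ≤ n, |upos σ k| ≤ (K : ℤ)) then
      Real.exp (-θ * (((univ : Finset (Fin n)).filter (fun i => upos σ i ∉ P)).card : ℝ)) else 0)
      * hh C P K 0 ≤ C ^ (K + 1) * Z θ K P (hh C P K) n 0 := by
    unfold Z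
    rw [Finset.sum_mul, Finset.mul_sum]
    refine Finset.sum_le_sum fun σ _ => ?_
    simp only [zero_add, coe_univ]
    by_cases hk : ∀ k ≤ n, |upos σ k| ≤ (K : ℤ)
    · rw [if_pos hk, if_pos hk]
      have h2 := hh_zero_le hC P K (upos σ n) (hk n le_rfl)
      have h3 := Real.exp_pos (-θ * (((range n).filter (fun i => upos σ i ∉ P)).card : ℝ))
      calc _ ≤ Real.exp (-θ * (((range n).filter (fun i => upos σ i ∉ P)).card : ℝ)) *
            (C ^ (K + 1) * hh C P K (upos σ n)) := by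
              exact mul_le_mul_of_nonneg_left h2 h3.le
        _ = _ := by ring
    · rw [if_neg hk, if_neg hk]
      simp
  have h5 : (∑ σ : Fin n → Bool, if (∀ k ≤ n, |upos σ k| ≤ (K : ℤ)) then
      Real.exp (-θ * (((univ : Finset (Fin n)).filter (fun i => upos σ i ∉ P)).card : ℝ)) else 0)
      * hh C P K 0 ≤ (2 ^ n * C ^ (K + 1) * (Real.cos (Real.pi / (P.card + C))) ^ n) * hh C P K 0 := by
    refine hstep.trans ?_
    have hCK : 0 ≤ C ^ (K + 1) := by positivity
    refine (mul_le_mul_of_nonneg_left key hCK).trans (le_of_eq ?_)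
    unfold om
    rw [mul_pow]
    ring
  exact le_of_mul_le_mul_right h5 hpos0

end

end Pool.Agent.H666R3.DM
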